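import Mathlib

set_option autoImplicit false
open MeasureTheory Set Filter Topology
open scoped ENNReal RealInnerProductSpace Pointwise

/-! Lower bound for the volume of polar projection bodies in all dimensions (MP_48ea53_gt). -/

namespace Pool.Agent.H229R2.LB

/-- Euclidean `n`-space -/
abbrev E (n : ℕ) := EuclideanSpace ℝ (Fin n)

/-- intersection of the slabs `|⟪l k, x⟫| ≤ r k` -/
def slab {n : ℕ} {ι : Type} (l : ι → E n) (r : ι → ℝ) : Set (E n) := {x | ∀ k, |⟪l k, x⟫| ≤ r k}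

/-- the family spans the space -/
def Spans {n : ℕ} {ι : Type} (l : ι → E n) : Prop := ∀ x : E n, (∀ k, ⟪l k, x⟫ = 0) → x = 0

/-- tight frame: `∑ u_k ⊗ u_k = id` -/
def Tight {n : ℕ} {ι : Type} [Fintype ι] (u : ι → E n) : Prop :=
  ∀ x : E n, ∑ k, ⟪u k, x⟫ • u k = x

/-- the frame operator `x ↦ ∑ τ_k ⟪u_k, x⟫ u_k` -/
noncomputable def fr {n : ℕ} {ι : Type} [Fintype ι] (u : ι → E n) (τ : ι → ℝ) : E n →L[ℝ] E n :=
  ∑ k, τ k • (innerSL ℝ (u k)).smulRight (u k)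

/-- the profile `ψ(y) = e^{-y²/2}` for `y ≤ 1` and `e^{-1/2}/y` for `y > 1` -/
noncomputable def psi (y : ℝ) : ℝ :=
  if y ≤ 1 then Real.exp (-(y ^ 2 / 2)) else Real.exp (-(1 / 2)) / y

/-- half-normal probability measure on `(0, ∞)` -/
noncomputable def hn : Measure ℝ :=
  (volume.restrict (Ioi 0)).withDensity
    (fun z => ENNReal.ofReal (Real.sqrt (2 / Real.pi) * Real.exp (-(z ^ 2 / 2))))

/-- `(n-1)`-dimensional volume of the projection to `u^⊥` -/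
noncomputable def projVol {n : ℕ} (K : Set (EuclideanSpace ℝ (Fin n)))
    (u : EuclideanSpace ℝ (Fin n)) : ℝ :=
  (μHE[n - 1] ((fun x : EuclideanSpace ℝ (Fin n) => x - ⟪u, x⟫ • u) '' K)).toReal

/-- An origin-symmetric convex body in `ℝⁿ`. -/
def IsSymmBody {n : ℕ} (K : Set (EuclideanSpace ℝ (Fin n))) : Prop :=
  Convex ℝ K ∧ IsCompact K ∧ (interior K).Nonempty ∧ ∀ x ∈ K, -x ∈ K

/-- `P` is the projection body of `K` -/
def IsProjBody {n : ℕ} (K P : Set (EuclideanSpace ℝ (Fin n))) : Prop :=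
  Convex ℝ P ∧ IsCompact P ∧ (interior P).Nonempty ∧
    ∀ u : EuclideanSpace ℝ (Fin n), ‖u‖ = 1 → sSup ((fun y => ⟪u, y⟫) '' P) = projVol K u

/-- polar body -/
def polar {n : ℕ} (P : Set (EuclideanSpace ℝ (Fin n))) : Set (EuclideanSpace ℝ (Fin n)) :=
  {x | ∀ y ∈ P, ⟪x, y⟫ ≤ 1}

end Pool.Agent.H229R2.LB
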