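import Mathlib
import Pool.Agent.H229R2.LB.Defs

set_option autoImplicit false
open MeasureTheory Set Filter Topology
open scoped ENNReal RealInnerProductSpace Pointwise

namespace Pool.Agent.H229R2.LB

/-- Gaussian quantile: transport of the uniform law of `(-1,1)` to the standard normal law -/
def S_GQ : Prop := ∃ G : ℝ → ℝ, ∀ t ∈ Ioo (-1 : ℝ) 1,
  HasDerivAt G (Real.sqrt (Real.pi / 2) * Real.exp (G t ^ 2 / 2)) t

/-- `∏ τ_k^{‖u_k‖²} ≤ det (∑ τ_k u_k ⊗ u_k)` for a tight frame -/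
def S_MDT : Prop := ∀ (n : ℕ) (ι : Type) [Fintype ι] (u : ι → E n), Tight u →
  ∀ τ : ι → ℝ, (∀ k, 0 < τ k) →
  (∏ k, τ k ^ (‖u k‖ ^ 2 : ℝ)) ≤ (fr u τ).det

/-- elementary facts on tight frames -/
def S_TFN : Prop := ∀ (n : ℕ) (ι : Type) [Fintype ι] (u : ι → E n), Tight u →
  (∀ x, ∑ k, ⟪u k, x⟫ ^ 2 = ‖x‖ ^ 2) ∧ (∀ t : ι → ℝ, ‖∑ k, t k • u k‖ ^ 2 ≤ ∑ k, t k ^ 2) ∧
  (∀ k, ‖u k‖ ^ 2 ≤ 1) ∧ ∑ k, ‖u k‖ ^ 2 = n

/-- Ball's inequality for tight frames, by transport -/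
def S_TRV : Prop := ∀ (n : ℕ) (ι : Type) [Fintype ι] (u : ι → E n), Tight u →
  ∀ y : ι → ℝ, (∀ k, 0 < y k) →
  volume (slab u y) ≤ ENNReal.ofReal (2 ^ n * ∏ k, (y k / ‖u k‖) ^ (‖u k‖ ^ 2 : ℝ))

/-- one-variable inequality -/
def S_PSI : Prop := ∀ y c : ℝ, 0 < y → 0 ≤ c → c ^ 2 ≤ 1 →
  psi y * (y / c) ^ (c ^ 2 : ℝ) ≤ Real.exp (-(c ^ 2 / 2))

/-- volume bound for tight frames -/
def S_BLT : Prop := ∀ (n : ℕ) (ι : Type) [Fintype ι] (u : ι → E n), Tight u →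
  ∀ y : ι → ℝ, (∀ k, 0 < y k) →
  ENNReal.ofReal (∏ k, psi (y k)) * volume (slab u y) ≤
    ENNReal.ofReal (2 ^ n * Real.exp (-(n / 2 : ℝ)))

/-- volume bound against a Gaussian integral -/
def S_BLV : Prop := ∀ (n : ℕ) (ι : Type) [Fintype ι] (l : ι → E n), Spans l →
  ∀ y : ι → ℝ, (∀ k, 0 < y k) →
  ENNReal.ofReal ((Real.pi * Real.exp 1 / 2) ^ (n / 2 : ℝ) * ∏ k, psi (y k)) *
      volume (slab l fun _ => 1) ≤
    ∫⁻ x, ENNReal.ofReal (Real.exp (-(∑ k, y k ^ 2 * ⟪l k, x⟫ ^ 2 / 2)))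

/-- the Laplace kernel is a mixture of Gaussians -/
def S_MIX : Prop := IsProbabilityMeasure hn ∧ ∀ a : ℝ, 0 ≤ a →
  ∫⁻ z, ENNReal.ofReal (Real.exp (-(a ^ 2 / (2 * z ^ 2)))) ∂hn = ENNReal.ofReal (Real.exp (-a))

/-- the numerical inequality -/
def S_TH : Prop := ∀ a : ℝ, 0 < a →
  ENNReal.ofReal (Real.exp (-(93 / 100 * a))) ≤ ∫⁻ z, ENNReal.ofReal (psi (a / z)) ∂hn

/-- lower bound for the integral of `e^{-N}` -/
def S_FUB : Prop := ∀ (n : ℕ) (ι : Type) [Fintype ι] (l : ι → E n), Spans l →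
  ∀ a : ι → ℝ, (∀ k, 0 < a k) →
  ENNReal.ofReal ((Real.pi * Real.exp 1 / 2) ^ (n / 2 : ℝ) * Real.exp (-(93 / 100 * ∑ k, a k))) *
      volume (slab l fun _ => 1) ≤
    ∫⁻ x, ENNReal.ofReal (Real.exp (-(∑ k, a k * |⟪l k, x⟫|)))

/-- the same with normalised weights -/
def S_KEY : Prop := ∀ (n : ℕ) (ι : Type) [Fintype ι] (l : ι → E n), Spans l →
  ∀ w : ι → ℝ, (∀ k, 0 ≤ w k) → ∑ k, w k ≤ n →
  ENNReal.ofReal ((163 / 200 : ℝ) ^ n) * volume (slab l fun _ => 1) ≤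
    ∫⁻ x, ENNReal.ofReal (Real.exp (-(∑ k, w k * |⟪l k, x⟫|)))

/-- supergradient of `r ↦ |slab l r|^{1/n}` at `r = 1` -/
def S_SUP : Prop := ∀ (n : ℕ), 0 < n → ∀ (ι : Type) [Fintype ι] (l : ι → E n), Spans l →
  ∃ w : ι → ℝ, (∀ k, 0 ≤ w k) ∧ ∑ k, w k ≤ n ∧ ∀ r : ι → ℝ, (∀ k, 1 ≤ r k) →
    (volume (slab l r)).toReal ≤
      (volume (slab l fun _ => 1)).toReal * (1 + (∑ k, w k * (r k - 1)) / n) ^ n

/-- slabs are symmetric convex bodies -/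
def S_CPT : Prop := ∀ (n : ℕ) (ι : Type) [Fintype ι] (l : ι → E n) (r : ι → ℝ), Spans l →
  IsCompact (slab l r) ∧ Convex ℝ (slab l r) ∧ (∀ x ∈ slab l r, -x ∈ slab l r) ∧
  ((∀ k, 0 < r k) → (0 : E n) ∈ interior (slab l r))

/-- volume of `K + [0, t u]` and the projection along `u` -/
def S_PV : Prop := ∀ (n : ℕ), 0 < n → ∀ K : Set (E n), Convex ℝ K → IsCompact K → ∀ u : E n,
  ‖u‖ = 1 → ∀ t : ℝ, 0 < t →
  (volume K).toReal + t * projVol K u ≤ (volume (K + segment ℝ 0 (t • u))).toReal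

/-- projections of slab polytopes -/
def S_HB : Prop := ∀ (n : ℕ), 0 < n → ∀ (ι : Type) [Fintype ι] (l : ι → E n), Spans l →
  ∃ w : ι → ℝ, (∀ k, 0 ≤ w k) ∧ ∑ k, w k ≤ n ∧ ∀ u : E n, ‖u‖ = 1 →
    projVol (slab l fun _ => 1) u ≤
      (volume (slab l fun _ => 1)).toReal / 2 * ∑ k, w k * |⟪l k, u⟫|

/-- projections of bodies are monotone -/
def S_MON : Prop := ∀ (n : ℕ), 0 < n → ∀ K L : Set (E n), IsCompact K → IsCompact L → K ⊆ L →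
  ∀ u : E n, ‖u‖ = 1 → projVol K u ≤ projVol L u

/-- approximation by slab polytopes -/
def S_APX : Prop := ∀ (n : ℕ), 0 < n → ∀ K : Set (E n), IsSymmBody K → ∀ q : ℝ, 0 < q → q < 1 →
  ∃ (N : ℕ) (l : Fin N → E n), Spans l ∧ K ⊆ slab l (fun _ => 1) ∧
    ∀ x ∈ slab l (fun _ => 1), q • x ∈ K

/-- `∫ e^{-N}` and the volume of `{N ≤ t}` -/
def S_VOL : Prop := ∀ (n : ℕ) (ι : Type) [Fintype ι] (l : ι → E n) (w : ι → ℝ),
  (∀ k, 0 ≤ w k) → ∀ t : ℝ, 0 < t →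
  volume {x : E n | ∑ k, w k * |⟪l k, x⟫| ≤ t} =
    ENNReal.ofReal (t ^ n / n.factorial) *
      ∫⁻ x, ENNReal.ofReal (Real.exp (-(∑ k, w k * |⟪l k, x⟫|)))

/-- the polar projection inequality for slab polytopes -/
def S_PBD : Prop := ∀ (n : ℕ), 0 < n → ∀ (ι : Type) [Fintype ι] (l : ι → E n), Spans l →
  ∀ A : Set (E n), (∀ x, x ∈ A ↔ ‖x‖ * projVol (slab l fun _ => 1) (‖x‖⁻¹ • x) ≤ 1) →
  ENNReal.ofReal ((163 / 100 : ℝ) ^ n / n.factorial) ≤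
    (volume (slab l fun _ => 1)) ^ (n - 1) * volume A

/-- the main theorem -/
def S_MAIN : Prop := ∀ (n : ℕ), 0 < n → ∀ K P : Set (E n), IsSymmBody K → IsProjBody K P →
  (163 / 100 : ℝ) ^ n / n.factorial ≤
    (volume K).toReal ^ (n - 1) * (volume (polar P)).toReal

end Pool.Agent.H229R2.LB
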